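import Pool.Agent.Helper50_DP.LogL

/-!
# Squad DP: restrictions of logarithmic forms to a line, basic lemmas
-/

open MvPolynomial PGH PGL

namespace Pool.Agent.DP.H32

variable {K : Type} [Field K] {N : ℕ}

/-- binary forms on a line and their derivatives -/
abbrev P2 (K : Type) [Field K] := MvPolynomial (Fin 2 × Fin 2) K

theorem lin_K (M v : Fin 3 → K) : lin M v = M 0 * v 0 + M 1 * v 1 + M 2 * v 2 := by
  simp [lin, Fin.sum_univ_three]

theorem rest_lin (α β M : Fin 3 → K) (r : Fin 2) :
    rest α β (lin M (fun c => (X (r, c) : MvPolynomial (Fin 2 × Fin 3) K))) =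
      C (lin M α) * X (r, 0) + C (lin M β) * X (r, 1) := by
  rw [lin_K, lin_K]
  simp only [lin, rest, Fin.sum_univ_three, map_add, map_mul, AlgHom.commutes, aeval_X]
  simp only [MvPolynomial.algebraMap_eq]
  ring

/-- the determinant of the restrictions of two forms -/
noncomputable def dd (α β M M' : Fin 3 → K) : K := lin M α * lin M' β - lin M β * lin M' α

theorem dd_ne {α β : Fin 3 → K} (hli : LinearIndependent K ![α, β]) {A M M' : Fin 3 → K}
    (hA : lin A α = (0 : K)) (hA' : lin A β = (0 : K)) (h : det3 A M M' ≠ 0) :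
    dd α β M M' ≠ 0 := by
  intro h0
  have h0' : lin M α * lin M' β = lin M β * lin M' α := sub_eq_zero.1 h0
  obtain ⟨x, y, hxy, h1, h2⟩ : ∃ x y : K, (x ≠ 0 ∨ y ≠ 0) ∧
      x * lin M α + y * lin M β = 0 ∧ x * lin M' α + y * lin M' β = 0 := by
    by_cases hp : lin M α = (0 : K) ∧ lin M β = (0 : K)
    · by_cases hp' : lin M' α = (0 : K) ∧ lin M' β = (0 : K)
      · exact ⟨1, 0, Or.inl one_ne_zero, by rw [hp.1, hp.2]; ring, by rw [hp'.1, hp'.2]; ring⟩
      · refine ⟨lin M' β, -lin M' α, ?_, by rw [hp.1, hp.2]; ring, by ring⟩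
        by_contra hc
        push Not at hc
        exact hp' ⟨neg_eq_zero.1 hc.2, hc.1⟩
    · refine ⟨lin M β, -lin M α, ?_, by ring, by linear_combination -h0'⟩
      by_contra hc
      push Not at hc
      exact hp ⟨neg_eq_zero.1 hc.2, hc.1⟩
  have hv : (fun c => x * α c + y * β c) ≠ (0 : Fin 3 → K) := by
    intro hv
    have := (LinearIndependent.pair_iff.1 hli) x y (by
      funext c
      exact congrFun hv c)
    rcases hxy with h | h
    · exact h this.1
    · exact h this.2
  refine h ?_
  rw [det3]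
  refine Matrix.exists_mulVec_eq_zero_iff.1 ⟨_, hv, ?_⟩
  have key : ∀ B : Fin 3 → K, x * lin B α + y * lin B β = 0 →
      ∑ c, B c * (x * α c + y * β c) = 0 := by
    intro B hB
    rw [lin_K, lin_K] at hB
    rw [Fin.sum_univ_three]
    linear_combination hB
  funext r
  fin_cases r
  · exact key A (by rw [hA, hA']; ring)
  · exact key M h1
  · exact key M' h2

theorem rest_qf (L : Fin N → Fin 3 → K) (α β : Fin 3 → K) (a b : Fin N) :
    rest α β (qf L a b) =
      C (-dd α β (L a) (L b)) * (X (0, 0) * X (1, 1) - X (0, 1) * X (1, 0)) := by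
  rw [qf, map_sub, map_mul, map_mul, rest_lin, rest_lin, rest_lin, rest_lin, dd]
  simp only [map_sub, map_mul, map_neg]
  ring

theorem rest_prf (L : Fin N → Fin 3 → K) (α β : Fin 3 → K) (T : Finset (Fin N)) :
    rest α β (prf L T) =
      ∏ s ∈ T, (C (lin (L s) α) * X (0, 0) + C (lin (L s) β) * X (0, 1)) := by
  rw [prf, map_prod]
  exact Finset.prod_congr rfl fun s _ => rest_lin _ _ _ _

/-- a form which restricts to zero has zero coefficients -/
theorem restl_ne {p q : K} (h : p ≠ 0 ∨ q ≠ 0) :
    (C p * X (0, 0) + C q * X (0, 1) : P2 K) ≠ 0 := by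
  intro h0
  rcases h with h | h
  · apply h
    have := congrArg (MvPolynomial.eval (fun s : Fin 2 × Fin 2 => if s = (0, 0) then (1 : K)
      else 0)) h0
    simpa using this
  · apply h
    have := congrArg (MvPolynomial.eval (fun s : Fin 2 × Fin 2 => if s = (0, 1) then (1 : K)
      else 0)) h0
    simpa using this

theorem w_ne : (X (0, 0) * X (1, 1) - X (0, 1) * X (1, 0) : P2 K) ≠ 0 := by
  intro h0
  have := congrArg (MvPolynomial.eval (fun s : Fin 2 × Fin 2 =>
    if s = (0, 0) ∨ s = (1, 1) then (1 : K) else 0)) h0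
  simp at this

end Pool.Agent.DP.H32
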