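import Pool.Agent.Helper32_DP.Bas

/-!
# Squad DP: the dual basis of three lines
-/

open MvPolynomial PGH PGL

namespace Pool.Agent.DP.H32

variable {K : Type} [Field K]

/-- the dual basis -/
theorem exists_dual {M₀ M₁ M₂ : Fin 3 → K} (h : det3 M₀ M₁ M₂ ≠ 0) :
    ∃ v : Fin 3 → Fin 3 → K, ∀ r s : Fin 3, lin ((![M₀, M₁, M₂] : Fin 3 → Fin 3 → K) r) (v s) =
      if r = s then (1 : K) else 0 := by
  set A : Matrix (Fin 3) (Fin 3) K := Matrix.of ![M₀, M₁, M₂] with hA
  have hu : IsUnit A.det := isUnit_iff_ne_zero.2 h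
  refine ⟨fun s c => A⁻¹ c s, fun r s => ?_⟩
  have h1 : (A * A⁻¹) r s = (1 : Matrix (Fin 3) (Fin 3) K) r s := by
    rw [Matrix.mul_nonsing_inv _ hu]
  rw [Matrix.mul_apply, Matrix.one_apply] at h1
  rw [← h1]
  simp [lin, hA]

theorem dual_li {M₁ M₂ α β : Fin 3 → K} (h1 : lin M₁ α = (1 : K)) (h2 : lin M₁ β = (0 : K))
    (h3 : lin M₂ α = (0 : K)) (h4 : lin M₂ β = (1 : K)) : LinearIndependent K ![α, β] := by
  refine LinearIndependent.pair_iff.2 fun s t hst => ?_
  have key : ∀ M : Fin 3 → K, s * lin M α + t * lin M β = 0 := by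
    intro M
    have e0 := congrFun hst 0
    have e1 := congrFun hst 1
    have e2 := congrFun hst 2
    simp only [Pi.add_apply, Pi.smul_apply, smul_eq_mul, Pi.zero_apply] at e0 e1 e2
    rw [lin_K, lin_K]
    linear_combination M 0 * e0 + M 1 * e1 + M 2 * e2
  have k1 := key M₁
  have k2 := key M₂
  rw [h1, h2, mul_one, mul_zero, add_zero] at k1
  rw [h3, h4, mul_one, mul_zero, zero_add] at k2
  exact ⟨k1, k2⟩

end Pool.Agent.DP.H32
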