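import Pool.Agent.Helper32_DP.Dual

/-!
# Squad DP, module LBAS: logarithmic forms for three lines
-/

open MvPolynomial PGH PGL

namespace Pool.Agent.DP.H32

variable {K : Type} [Field K] {N : ℕ}

/-- the jets used for the three lines, with `z' = 0` -/
noncomputable def spec (α β γ : Fin 3 → K) :
    MvPolynomial (Fin 2 × Fin 3) K →ₐ[K] MvPolynomial (Fin 2 × Fin 3) K :=
  ev1 (fun c => C (α c) * X (0, 0) + C (β c) * X (0, 1) + C (γ c) * X (0, 2))
    (fun c => C (α c) * X (1, 0) + C (β c) * X (1, 1))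

theorem spec_lin0 (α β γ M : Fin 3 → K) :
    spec α β γ (lin M (fun c => (X (0, c) : MvPolynomial (Fin 2 × Fin 3) K))) =
      C (lin M α) * X (0, 0) + C (lin M β) * X (0, 1) + C (lin M γ) * X (0, 2) := by
  rw [spec, ev1_lin0, lin_K, lin_K, lin_K]
  simp only [lin, Fin.sum_univ_three, map_add, map_mul, MvPolynomial.algebraMap_eq]
  ring

theorem spec_lin1 (α β γ M : Fin 3 → K) :
    spec α β γ (lin M (fun c => (X (1, c) : MvPolynomial (Fin 2 × Fin 3) K))) =
      C (lin M α) * X (1, 0) + C (lin M β) * X (1, 1) := by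
  rw [spec, ev1_lin1, lin_K, lin_K]
  simp only [lin, Fin.sum_univ_three, map_add, map_mul, MvPolynomial.algebraMap_eq]
  ring

/-- the index set -/
abbrev Ix (p c : ℕ) := Fin (p + 1) × (Σ i : Fin (c + 1), Fin ((i : ℕ) + 1))

theorem sum_aux (m : ℕ) : (∑ i ∈ Finset.range m, (i + 1)) * 2 = m * (m + 1) := by
  induction m with
  | zero => simp
  | succ m ih =>
    rw [Finset.sum_range_succ, add_mul, ih]
    ring

theorem card_Ix (p c : ℕ) : Fintype.card (Ix p c) = (p + 1) * ((c + 1) * (c + 2) / 2) := by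
  have h : ∑ i : Fin (c + 1), ((i : ℕ) + 1) = (c + 1) * (c + 2) / 2 := by
    rw [Fin.sum_univ_eq_sum_range (fun i => i + 1) (c + 1)]
    exact (Nat.div_eq_of_eq_mul_left two_pos (sum_aux (c + 1)).symm).symm
  rw [Fintype.card_prod, Fintype.card_fin, Fintype.card_sigma, ← h]
  simp only [Fintype.card_fin]

/-- the exponents -/
noncomputable def exps (p c : ℕ) (x : Ix p c) : Fin 2 × Fin 3 →₀ ℕ :=
  Finsupp.single (1, 0) (x.1 : ℕ) + Finsupp.single (1, 1) (p - (x.1 : ℕ)) +
    Finsupp.single (0, 0) (p - (x.1 : ℕ) + (x.2.2 : ℕ)) +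
    Finsupp.single (0, 1) ((x.1 : ℕ) + ((x.2.1 : ℕ) - (x.2.2 : ℕ))) +
    Finsupp.single (0, 2) (p + (c - (x.2.1 : ℕ)))

theorem exps_inj (p c : ℕ) : Function.Injective (exps p c) := by
  rintro ⟨A, ⟨i, j⟩⟩ ⟨A', ⟨i', j'⟩⟩ h
  have h1 := DFunLike.congr_fun h ((1, 0) : Fin 2 × Fin 3)
  have h2 := DFunLike.congr_fun h ((0, 2) : Fin 2 × Fin 3)
  have h3 := DFunLike.congr_fun h ((0, 0) : Fin 2 × Fin 3)
  simp [exps] at h1 h2 h3
  have hA : A = A' := Fin.ext h1
  subst hA
  have hi : i = i' := Fin.ext (by omega)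
  subst hi
  have hj : j = j' := Fin.ext (by omega)
  subst hj
  rfl

/-- the forms -/
noncomputable def Gf (L : Fin N → Fin 3 → K) (a b e : Fin N) (p c : ℕ) (x : Ix p c) :
    MvPolynomial (Fin 2 × Fin 3) K :=
  (qf L a e * lin (L b) (fun c => X (0, c))) ^ (x.1 : ℕ) *
    (qf L b e * lin (L a) (fun c => X (0, c))) ^ (p - (x.1 : ℕ)) *
    (lin (L a) (fun c => X (0, c)) ^ (x.2.2 : ℕ) * lin (L b) (fun c => X (0, c)) ^
      ((x.2.1 : ℕ) - (x.2.2 : ℕ)) * lin (L e) (fun c => X (0, c)) ^ (c - (x.2.1 : ℕ)))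

theorem spec_Gf {L : Fin N → Fin 3 → K} {a b e : Fin N} {v : Fin 3 → Fin 3 → K}
    (hv : ∀ r s : Fin 3, lin ((![L a, L b, L e] : Fin 3 → Fin 3 → K) r) (v s) =
      if r = s then (1 : K) else 0) (p c : ℕ) (x : Ix p c) :
    spec (v 0) (v 1) (v 2) (Gf L a b e p c x) = monomial (exps p c x) 1 := by
  have h00 : lin (L a) (v 0) = (1 : K) := by simpa using hv 0 0
  have h01 : lin (L a) (v 1) = (0 : K) := by simpa using hv 0 1
  have h02 : lin (L a) (v 2) = (0 : K) := by simpa using hv 0 2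
  have h10 : lin (L b) (v 0) = (0 : K) := by simpa using hv 1 0
  have h11 : lin (L b) (v 1) = (1 : K) := by simpa using hv 1 1
  have h12 : lin (L b) (v 2) = (0 : K) := by simpa using hv 1 2
  have h20 : lin (L e) (v 0) = (0 : K) := by simpa using hv 2 0
  have h21 : lin (L e) (v 1) = (0 : K) := by simpa using hv 2 1
  have h22 : lin (L e) (v 2) = (1 : K) := by simpa using hv 2 2
  obtain ⟨⟨A, hA⟩, ⟨⟨i, hi⟩, ⟨j, hj⟩⟩⟩ := x
  obtain ⟨B, rfl⟩ : ∃ B, p = A + B := ⟨p - A, by omega⟩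
  have hB : A + B - A = B := by omega
  simp only [Gf, exps, qf, map_mul, map_pow, map_sub, spec_lin0, spec_lin1, h00, h01, h02, h10,
    h11, h12, h20, h21, h22, map_zero, map_one, zero_mul, one_mul, add_zero, zero_add, hB,
    mul_zero, sub_zero]
  have e1 : ∀ m₁ m₂ m₃ m₄ m₅ : ℕ, (monomial (Finsupp.single ((1, 0) : Fin 2 × Fin 3) m₁ +
      Finsupp.single (1, 1) m₂ + Finsupp.single (0, 0) m₃ + Finsupp.single (0, 1) m₄ +
      Finsupp.single (0, 2) m₅) (1 : K)) =
      X (1, 0) ^ m₁ * X (1, 1) ^ m₂ * X (0, 0) ^ m₃ * X (0, 1) ^ m₄ * X (0, 2) ^ m₅ := by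
    intro m₁ m₂ m₃ m₄ m₅
    simp only [X_pow_eq_monomial, monomial_mul, mul_one]
  rw [e1]
  ring

theorem Gf_mem {L : Fin N → Fin 3 → K} {a b e : Fin N} (hab : a ≠ b) (hae : a ≠ e)
    (hbe : b ≠ e) (p c : ℕ) (x : Ix p c) :
    Gf L a b e p c x ∈ LogP L ({a, b, e} : Finset (Fin N)) p c := by
  have e1 : (({a, b, e} : Finset (Fin N)).erase a).erase e = {b} := by
    ext t
    simp only [Finset.mem_erase, Finset.mem_insert, Finset.mem_singleton]
    constructor
    · rintro ⟨h1, h2, h3⟩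
      rcases h3 with h | h | h
      · exact absurd h h2
      · exact h
      · exact absurd h h1
    · rintro rfl
      exact ⟨hbe, hab.symm, Or.inr (Or.inl rfl)⟩
  have e2 : (({a, b, e} : Finset (Fin N)).erase b).erase e = {a} := by
    ext t
    simp only [Finset.mem_erase, Finset.mem_insert, Finset.mem_singleton]
    constructor
    · rintro ⟨h1, h2, h3⟩
      rcases h3 with h | h | h
      · exact h
      · exact absurd h h2
      · exact absurd h h1
    · rintro rfl
      exact ⟨hae, hab, Or.inl rfl⟩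
  have h1 : qf L a e * lin (L b) (fun c => X (0, c)) ∈
      LogP L ({a, b, e} : Finset (Fin N)) 1 0 := by
    have := LogP_qf (L := L) (S := ({a, b, e} : Finset (Fin N))) (a := a) (b := e)
      (by simp) (by simp) hae
    rw [e1] at this
    simpa [prf] using this
  have h2 : qf L b e * lin (L a) (fun c => X (0, c)) ∈
      LogP L ({a, b, e} : Finset (Fin N)) 1 0 := by
    have := LogP_qf (L := L) (S := ({a, b, e} : Finset (Fin N))) (a := b) (b := e)
      (by simp) (by simp) hbe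
    rw [e2] at this
    simpa [prf] using this
  obtain ⟨⟨A, hA⟩, ⟨⟨i, hi⟩, ⟨j, hj⟩⟩⟩ := x
  have hj' : j < i + 1 := hj
  have h3 := LogP_mul (LogP_mul (LogP_pow h1 A) (LogP_pow h2 (p - A)))
    (LogP_mul (LogP_mul (LogP_pow (LogP_lin (L := L) (S := ({a, b, e} : Finset (Fin N))) (L a)) j)
      (LogP_pow (LogP_lin (L := L) (S := ({a, b, e} : Finset (Fin N))) (L b)) (i - j)))
      (LogP_pow (LogP_lin (L := L) (S := ({a, b, e} : Finset (Fin N))) (L e)) (c - i)))
  exact LogP_congr h3 (by omega) (by omega)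

/-- module LBAS -/
theorem lbas : LbasStmt := by
  intro K _ N L S p c hL hS
  obtain ⟨a, b, e, hab, hae, hbe, rfl⟩ := Finset.card_eq_three.1 hS
  obtain ⟨v, hv⟩ := exists_dual (hL a b e hab hae.symm hbe.symm)
  have hli : LinearIndependent K (Gf L a b e p c) := by
    refine LinearIndependent.of_comp (spec (v 0) (v 1) (v 2)).toLinearMap ?_
    have e1 : ((spec (v 0) (v 1) (v 2)).toLinearMap ∘ Gf L a b e p c) =
        ((basisMonomials (Fin 2 × Fin 3) K) : _ → MvPolynomial (Fin 2 × Fin 3) K) ∘ exps p c := by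
      funext x
      simp only [Function.comp_apply, AlgHom.toLinearMap_apply, coe_basisMonomials]
      exact spec_Gf hv p c x
    rw [e1]
    exact (basisMonomials (Fin 2 × Fin 3) K).linearIndependent.comp _ (exps_inj p c)
  let f := (Fintype.equivFinOfCardEq (card_Ix p c)).symm
  exact ⟨fun t => Gf L a b e p c (f t), fun t => Gf_mem hab hae hbe p c _,
    hli.comp f f.injective⟩

end Pool.Agent.DP.H32
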