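import Pool.Agent.Helper32_DP.Bas

/-!
# Squad DP, module LRES: forms with independent restrictions to a further line
-/

open MvPolynomial PGH PGL

namespace Pool.Agent.DP.H32

variable {K : Type} [Field K] {N : ℕ}

section span

variable {R : Type} [CommRing R] [Algebra K R] {ι : Type} [DecidableEq ι]

/-- the span of the products of all but one form -/
def Wsp (K : Type) [Field K] {R : Type} [CommRing R] [Algebra K R] {ι : Type} [DecidableEq ι]
    (l : ι → R) (T : Finset ι) : Submodule K R :=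
  Submodule.span K {F | ∃ j ∈ T, F = ∏ s ∈ T.erase j, l s}

theorem Wsp_step (x : R) (l : ι → R) {T : Finset ι} {t : ι} (ht : t ∈ T)
    (hx : ∀ a ∈ T, ∀ b ∈ T, a ≠ b → ∃ c₁ c₂ : K, c₁ • l a + c₂ • l b = x) {F : R}
    (hF : F ∈ Wsp K l (T.erase t)) : x * F ∈ Wsp K l T := by
  refine Submodule.span_induction (p := fun F _ => x * F ∈ Wsp K l T) ?_ ?_ ?_ ?_ hF
  · rintro F ⟨j, hj, rfl⟩
    have hjT : j ∈ T := Finset.mem_of_mem_erase hj
    have hjt : j ≠ t := Finset.ne_of_mem_erase hj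
    obtain ⟨c₁, c₂, hc⟩ := hx t ht j hjT hjt.symm
    have e1 : l j * ∏ s ∈ (T.erase t).erase j, l s = ∏ s ∈ T.erase t, l s :=
      Finset.mul_prod_erase _ _ hj
    have e2 : l t * ∏ s ∈ (T.erase t).erase j, l s = ∏ s ∈ T.erase j, l s := by
      rw [Finset.erase_right_comm]
      exact Finset.mul_prod_erase _ _ (Finset.mem_erase.2 ⟨hjt.symm, ht⟩)
    have e3 : x * ∏ s ∈ (T.erase t).erase j, l s =
        c₁ • ∏ s ∈ T.erase j, l s + c₂ • ∏ s ∈ T.erase t, l s := by
      rw [← e1, ← e2, ← hc, add_mul, smul_mul_assoc, smul_mul_assoc]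
    rw [e3]
    exact Submodule.add_mem _ (Submodule.smul_mem _ _ (Submodule.subset_span ⟨j, hjT, rfl⟩))
      (Submodule.smul_mem _ _ (Submodule.subset_span ⟨t, ht, rfl⟩))
  · rw [mul_zero]
    exact Submodule.zero_mem _
  · intro a b _ _ ha hb
    rw [mul_add]
    exact Submodule.add_mem _ ha hb
  · intro c a _ ha
    rw [mul_smul_comm]
    exact Submodule.smul_mem _ _ ha

theorem mem_Wsp (x y : R) (l : ι → R) : ∀ (m : ℕ) (T : Finset ι), T.card = m + 1 →
    (∀ a ∈ T, ∀ b ∈ T, a ≠ b → ∃ c₁ c₂ : K, c₁ • l a + c₂ • l b = x) →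
    (∀ a ∈ T, ∀ b ∈ T, a ≠ b → ∃ c₁ c₂ : K, c₁ • l a + c₂ • l b = y) →
    ∀ a b : ℕ, a + b = m → x ^ a * y ^ b ∈ Wsp K l T := by
  intro m
  induction m with
  | zero =>
    intro T hT _ _ a b hab
    obtain ⟨t, rfl⟩ := Finset.card_eq_one.1 hT
    obtain ⟨rfl, rfl⟩ : a = 0 ∧ b = 0 := by omega
    refine Submodule.subset_span ⟨t, Finset.mem_singleton_self t, ?_⟩
    simp
  | succ m ih =>
    intro T hT hx hy a b hab
    obtain ⟨t, ht⟩ : T.Nonempty := Finset.card_pos.1 (by omega)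
    have hT' : (T.erase t).card = m + 1 := by
      rw [Finset.card_erase_of_mem ht]
      omega
    have hsub : ∀ a ∈ T.erase t, a ∈ T := fun a ha => Finset.mem_of_mem_erase ha
    have hx' : ∀ a ∈ T.erase t, ∀ b ∈ T.erase t, a ≠ b → ∃ c₁ c₂ : K, c₁ • l a + c₂ • l b = x :=
      fun a ha b hb hab => hx a (hsub a ha) b (hsub b hb) hab
    have hy' : ∀ a ∈ T.erase t, ∀ b ∈ T.erase t, a ≠ b → ∃ c₁ c₂ : K, c₁ • l a + c₂ • l b = y :=
      fun a ha b hb hab => hy a (hsub a ha) b (hsub b hb) hab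
    rcases a with _ | a
    · rcases b with _ | b
      · omega
      · have h1 := Wsp_step y l ht hy (ih (T.erase t) hT' hx' hy' 0 b (by omega))
        have e : x ^ 0 * y ^ (b + 1) = y * (x ^ 0 * y ^ b) := by ring
        rw [e]
        exact h1
    · have h1 := Wsp_step x l ht hx (ih (T.erase t) hT' hx' hy' a b (by omega))
      have e : x ^ (a + 1) * y ^ b = x * (x ^ a * y ^ b) := by ring
      rw [e]
      exact h1

end span

/-- the restrictions of the logarithmic forms -/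
noncomputable def Rm (L : Fin N → Fin 3 → K) (S : Finset (Fin N)) (α β : Fin 3 → K) (q c : ℕ) :
    Submodule K (P2 K) :=
  Submodule.map (rest α β).toLinearMap (LogP L S q c)

section Rm

variable {L : Fin N → Fin 3 → K} {S : Finset (Fin N)} {α β : Fin 3 → K}

theorem Rm_mk {q c : ℕ} {B : MvPolynomial (Fin 2 × Fin 3) K} (hB : B ∈ LogP L S q c) :
    rest α β B ∈ Rm L S α β q c := ⟨B, hB, rfl⟩

theorem Rm_mul {q c q' c' : ℕ} {F F' : P2 K} (hF : F ∈ Rm L S α β q c)
    (hF' : F' ∈ Rm L S α β q' c') : F * F' ∈ Rm L S α β (q + q') (c + c') := by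
  obtain ⟨B, hB, rfl⟩ := hF
  obtain ⟨B', hB', rfl⟩ := hF'
  have := Rm_mk (α := α) (β := β) (LogP_mul hB hB')
  rw [map_mul] at this
  exact this

theorem Rm_one : (1 : P2 K) ∈ Rm L S α β 0 0 := by
  have := Rm_mk (α := α) (β := β) (LogP_one (L := L) (S := S))
  rwa [map_one] at this

theorem Rm_congr {q c q' c' : ℕ} {F : P2 K} (hF : F ∈ Rm L S α β q c) (hq : q = q')
    (hc : c = c') : F ∈ Rm L S α β q' c' := by
  subst hq; subst hc; exact hF

theorem Rm_pow {q c : ℕ} {F : P2 K} (hF : F ∈ Rm L S α β q c) (n : ℕ) :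
    F ^ n ∈ Rm L S α β (n * q) (n * c) := by
  induction n with
  | zero => simpa using Rm_one
  | succ n ih =>
    rw [pow_succ, Nat.succ_mul, Nat.succ_mul]
    exact Rm_mul ih hF

end Rm

/-- the two variables are combinations of two restricted forms -/
theorem comb_x {α β M M' : Fin 3 → K} (h : dd α β M M' ≠ 0) :
    ∃ c₁ c₂ : K, c₁ • (C (lin M α) * X (0, 0) + C (lin M β) * X (0, 1) : P2 K) +
      c₂ • (C (lin M' α) * X (0, 0) + C (lin M' β) * X (0, 1) : P2 K) = X (0, 0) := by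
  refine ⟨(dd α β M M')⁻¹ * lin M' β, -((dd α β M M')⁻¹ * lin M β), ?_⟩
  have h1 : (C (dd α β M M')⁻¹ : P2 K) * C (dd α β M M') = 1 := by
    rw [← map_mul, inv_mul_cancel₀ h, map_one]
  have h2 : (C (dd α β M M') : P2 K) =
      C (lin M α) * C (lin M' β) - C (lin M β) * C (lin M' α) := by
    rw [dd, map_sub, map_mul, map_mul]
  rw [h2] at h1
  simp only [smul_eq_C_mul, map_neg, map_mul]
  linear_combination (X (0, 0) : P2 K) * h1

theorem comb_y {α β M M' : Fin 3 → K} (h : dd α β M M' ≠ 0) :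
    ∃ c₁ c₂ : K, c₁ • (C (lin M α) * X (0, 0) + C (lin M β) * X (0, 1) : P2 K) +
      c₂ • (C (lin M' α) * X (0, 0) + C (lin M' β) * X (0, 1) : P2 K) = X (0, 1) := by
  refine ⟨-((dd α β M M')⁻¹ * lin M' α), (dd α β M M')⁻¹ * lin M α, ?_⟩
  have h1 : (C (dd α β M M')⁻¹ : P2 K) * C (dd α β M M') = 1 := by
    rw [← map_mul, inv_mul_cancel₀ h, map_one]
  have h2 : (C (dd α β M M') : P2 K) =
      C (lin M α) * C (lin M' β) - C (lin M β) * C (lin M' α) := by
    rw [dd, map_sub, map_mul, map_mul]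
  rw [h2] at h1
  simp only [smul_eq_C_mul, map_neg, map_mul]
  linear_combination (X (0, 1) : P2 K) * h1

theorem Rm_main {L : Fin N → Fin 3 → K} {S : Finset (Fin N)} {α β : Fin 3 → K} {n : ℕ}
    (hS : S.card = n + 2) (hd : ∀ a ∈ S, ∀ b ∈ S, a ≠ b → dd α β (L a) (L b) ≠ 0) :
    ∀ q c a b : ℕ, a + b = q * n + c →
      (X (0, 0) * X (1, 1) - X (0, 1) * X (1, 0) : P2 K) ^ q * (X (0, 0) ^ a * X (0, 1) ^ b) ∈
        Rm L S α β q c := by
  obtain ⟨s₀, hs₀⟩ : S.Nonempty := Finset.card_pos.1 (by omega)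
  have hT : (S.erase s₀).card = n + 1 := by
    rw [Finset.card_erase_of_mem hs₀]
    omega
  obtain ⟨s₁, hs₁⟩ : (S.erase s₀).Nonempty := Finset.card_pos.1 (by omega)
  have hs₁S : s₁ ∈ S := Finset.mem_of_mem_erase hs₁
  have hs₁₀ : s₁ ≠ s₀ := Finset.ne_of_mem_erase hs₁
  have hlin : ∀ M : Fin 3 → K,
      (C (lin M α) * X (0, 0) + C (lin M β) * X (0, 1) : P2 K) ∈ Rm L S α β 0 1 := by
    intro M
    have := Rm_mk (α := α) (β := β) (LogP_lin (L := L) (S := S) M)
    rwa [rest_lin] at this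
  have hx : (X (0, 0) : P2 K) ∈ Rm L S α β 0 1 := by
    obtain ⟨c₁, c₂, h⟩ := comb_x (hd s₁ hs₁S s₀ hs₀ hs₁₀)
    rw [← h]
    exact Submodule.add_mem _ (Submodule.smul_mem _ _ (hlin _)) (Submodule.smul_mem _ _ (hlin _))
  have hy : (X (0, 1) : P2 K) ∈ Rm L S α β 0 1 := by
    obtain ⟨c₁, c₂, h⟩ := comb_y (hd s₁ hs₁S s₀ hs₀ hs₁₀)
    rw [← h]
    exact Submodule.add_mem _ (Submodule.smul_mem _ _ (hlin _)) (Submodule.smul_mem _ _ (hlin _))
  have h1 : ∀ a b : ℕ, a + b = n →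
      (X (0, 0) * X (1, 1) - X (0, 1) * X (1, 0) : P2 K) * (X (0, 0) ^ a * X (0, 1) ^ b) ∈
        Rm L S α β 1 0 := by
    intro a b hab
    have hm := mem_Wsp (K := K) (X (0, 0) : P2 K) (X (0, 1))
      (fun s => (C (lin (L s) α) * X (0, 0) + C (lin (L s) β) * X (0, 1) : P2 K)) n (S.erase s₀) hT
      (fun a ha b hb hab => comb_x (hd a (Finset.mem_of_mem_erase ha) b
        (Finset.mem_of_mem_erase hb) hab))
      (fun a ha b hb hab => comb_y (hd a (Finset.mem_of_mem_erase ha) b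
        (Finset.mem_of_mem_erase hb) hab)) a b hab
    refine Submodule.span_induction
      (p := fun F _ => (X (0, 0) * X (1, 1) - X (0, 1) * X (1, 0) : P2 K) * F ∈ Rm L S α β 1 0)
      ?_ ?_ ?_ ?_ hm
    · rintro F ⟨j, hj, rfl⟩
      have hjS : j ∈ S := Finset.mem_of_mem_erase hj
      have hj0 : j ≠ s₀ := Finset.ne_of_mem_erase hj
      have hdj := hd j hjS s₀ hs₀ hj0
      have hq := Rm_mk (α := α) (β := β) (LogP_qf (L := L) hjS hs₀ hj0)
      rw [map_mul, rest_qf, rest_prf, Finset.erase_right_comm] at hq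
      have hq' := Submodule.smul_mem _ (-(dd α β (L j) (L s₀))⁻¹) hq
      have e : (-(dd α β (L j) (L s₀))⁻¹) •
          (C (-dd α β (L j) (L s₀)) * (X (0, 0) * X (1, 1) - X (0, 1) * X (1, 0)) *
            ∏ s ∈ (S.erase s₀).erase j,
              (C (lin (L s) α) * X (0, 0) + C (lin (L s) β) * X (0, 1)) : P2 K) =
          (X (0, 0) * X (1, 1) - X (0, 1) * X (1, 0)) *
            ∏ s ∈ (S.erase s₀).erase j,
              (C (lin (L s) α) * X (0, 0) + C (lin (L s) β) * X (0, 1)) := by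
        have h1 : (C (-(dd α β (L j) (L s₀))⁻¹) : P2 K) * C (-dd α β (L j) (L s₀)) = 1 := by
          rw [← map_mul, neg_mul_neg, inv_mul_cancel₀ hdj, map_one]
        rw [smul_eq_C_mul, ← mul_assoc, ← mul_assoc, h1, one_mul]
      rw [e] at hq'
      exact hq'
    · rw [mul_zero]
      exact Submodule.zero_mem _
    · intro a b _ _ ha hb
      rw [mul_add]
      exact Submodule.add_mem _ ha hb
    · intro c a _ ha
      rw [mul_smul_comm]
      exact Submodule.smul_mem _ _ ha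
  intro q
  induction q with
  | zero =>
    intro c a b hab
    rw [pow_zero, one_mul]
    exact Rm_congr (Rm_mul (Rm_pow hx a) (Rm_pow hy b)) (by ring) (by omega)
  | succ q ih =>
    intro c a b hab
    have e1 : ∃ a₁ b₁ a₂ b₂ : ℕ, a₁ + b₁ = n ∧ a₂ + b₂ = q * n + c ∧ a = a₁ + a₂ ∧
        b = b₁ + b₂ := by
      have hab' : a + b = q * n + c + n := by rw [hab]; ring
      by_cases h : n ≤ a
      · exact ⟨n, 0, a - n, b, by omega, by omega, by omega, by omega⟩
      · exact ⟨a, n - a, 0, b - (n - a), by omega, by omega, by omega, by omega⟩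
    obtain ⟨a₁, b₁, a₂, b₂, h₁, h₂, rfl, rfl⟩ := e1
    have h3 := Rm_mul (h1 a₁ b₁ h₁) (ih c a₂ b₂ h₂)
    have e2 : (X (0, 0) * X (1, 1) - X (0, 1) * X (1, 0) : P2 K) ^ (q + 1) *
        (X (0, 0) ^ (a₁ + a₂) * X (0, 1) ^ (b₁ + b₂)) =
        (X (0, 0) * X (1, 1) - X (0, 1) * X (1, 0)) * (X (0, 0) ^ a₁ * X (0, 1) ^ b₁) *
        ((X (0, 0) * X (1, 1) - X (0, 1) * X (1, 0)) ^ q *
          (X (0, 0) ^ a₂ * X (0, 1) ^ b₂)) := by ring
    rw [e2]
    exact Rm_congr h3 (by ring) (by ring)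

/-- independence of the monomials -/
theorem li_mono (m : ℕ) :
    LinearIndependent K fun t : Fin (m + 1) => (X (0, 0) ^ (t : ℕ) * X (0, 1) ^ (m - t) : P2 K) := by
  have h := (basisMonomials (Fin 2 × Fin 2) K).linearIndependent.comp
    (fun t : Fin (m + 1) => (Finsupp.single ((0, 0) : Fin 2 × Fin 2) (t : ℕ) +
      Finsupp.single ((0, 1) : Fin 2 × Fin 2) (m - t : ℕ))) (by
    intro t t' htt
    have := DFunLike.congr_fun htt ((0, 0) : Fin 2 × Fin 2)
    simpa [Fin.ext_iff] using this)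
  have e : (fun t : Fin (m + 1) => (X (0, 0) ^ (t : ℕ) * X (0, 1) ^ (m - t) : P2 K)) =
      ((basisMonomials (Fin 2 × Fin 2) K) : _ → P2 K) ∘
        (fun t : Fin (m + 1) => (Finsupp.single ((0, 0) : Fin 2 × Fin 2) (t : ℕ) +
          Finsupp.single ((0, 1) : Fin 2 × Fin 2) (m - t : ℕ))) := by
    funext t
    simp only [Function.comp_apply, coe_basisMonomials, X_pow_eq_monomial, monomial_mul, mul_one]
  rw [e]
  exact h

theorem li_mul {ι : Type} {F : ι → P2 K} (hF : LinearIndependent K F) {w : P2 K} (hw : w ≠ 0) :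
    LinearIndependent K fun t => w * F t :=
  hF.map' (LinearMap.mulLeft K w) (LinearMap.ker_eq_bot.2 (mul_right_injective₀ hw))

theorem dd_ne_of_genPos {L : Fin N → Fin 3 → K} (hL : GenPos L) {S : Finset (Fin N)} {i : Fin N}
    (hi : i ∉ S) {α β : Fin 3 → K} (hli : LinearIndependent K ![α, β])
    (hα : lin (L i) α = (0 : K)) (hβ : lin (L i) β = (0 : K)) :
    ∀ a ∈ S, ∀ b ∈ S, a ≠ b → dd α β (L a) (L b) ≠ 0 := by
  intro a ha b hb hab
  refine dd_ne hli hα hβ (hL i a b ?_ ?_ ?_)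
  · rintro rfl
    exact hi ha
  · rintro rfl
    exact hi hb
  · exact hab.symm

/-- module LRES -/
theorem lres : LresStmt := by
  intro K _ N L S i n q c α β hL hi hS hli hα hβ
  have hd := dd_ne_of_genPos hL hi hli hα hβ
  have hmain := Rm_main hS hd q c
  have hex : ∀ t : Fin (q * n + c + 1), ∃ g ∈ LogP L S q c, rest α β g =
      (X (0, 0) * X (1, 1) - X (0, 1) * X (1, 0) : P2 K) ^ q *
        (X (0, 0) ^ (t : ℕ) * X (0, 1) ^ (q * n + c - t)) := by
    intro t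
    obtain ⟨g, hg, hg'⟩ := hmain t (q * n + c - t) (by omega)
    exact ⟨g, hg, hg'⟩
  choose g hg hg' using hex
  refine ⟨g, hg, ?_⟩
  have e : (fun t => rest α β (g t)) = fun t : Fin (q * n + c + 1) =>
      (X (0, 0) * X (1, 1) - X (0, 1) * X (1, 0) : P2 K) ^ q *
        (X (0, 0) ^ (t : ℕ) * X (0, 1) ^ (q * n + c - t)) := funext hg'
  rw [e]
  exact li_mul (li_mono (q * n + c)) (pow_ne_zero _ w_ne)

end Pool.Agent.DP.H32
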