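import Pool.Agent.Helper32_DP.Dual
import Pool.Agent.Helper32_DP.Lres

/-!
# Squad DP, module LIND: adding one line
-/

open MvPolynomial PGH PGL

namespace Pool.Agent.DP.H32

theorem tri {K V W : Type} [Field K] [AddCommGroup V] [Module K V] [AddCommGroup W] [Module K W]
    {I : Type} [Fintype I] {m : I → ℕ} {d : ℕ} (E : (j : I) → Fin (m j) → V)
    (φ : I → V →ₗ[K] W) (ρ : I → ℕ) (hρ : Function.Injective ρ)
    (hlt : ∀ j j', ρ j < ρ j' → ∀ t, φ j (E j' t) = 0)
    (hli : ∀ j, LinearIndependent K fun t => φ j (E j t)) (G : Fin d → V)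
    (hG : LinearIndependent K G) (hφG : ∀ j t, φ j (G t) = 0) :
    LinearIndependent K (Sum.elim (fun x : (Σ j, Fin (m j)) => E x.1 x.2) G) := by
  rw [Fintype.linearIndependent_iff]
  intro g hg
  rw [Fintype.sum_sum_type] at hg
  simp only [Sum.elim_inl, Sum.elim_inr] at hg
  have h1 : ∀ N : ℕ, ∀ j, ρ j = N → ∀ t, g (Sum.inl ⟨j, t⟩) = 0 := by
    intro N
    induction N using Nat.strong_induction_on with
    | _ N ih =>
      intro j hj
      have h2 := congrArg (φ j) hg
      rw [map_add, map_sum, map_sum, map_zero] at h2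
      simp only [map_smul, hφG, smul_zero, Finset.sum_const_zero, add_zero] at h2
      rw [Fintype.sum_sigma, Finset.sum_eq_single_of_mem j (Finset.mem_univ _)] at h2
      · exact Fintype.linearIndependent_iff.1 (hli j) _ h2
      · intro j' _ hjj'
        refine Finset.sum_eq_zero fun t _ => ?_
        rcases lt_trichotomy (ρ j') (ρ j) with h | h | h
        · rw [ih (ρ j') (hj ▸ h) j' rfl t, zero_smul]
        · exact absurd (hρ h) hjj'
        · rw [hlt j j' h t, smul_zero]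
  have h2 : ∀ x, g (Sum.inl x) = 0 := fun x => h1 _ x.1 rfl x.2
  simp only [h2, zero_smul, Finset.sum_const_zero, zero_add] at hg
  have h3 := Fintype.linearIndependent_iff.1 hG _ hg
  rintro (x | t)
  · exact h2 x
  · exact h3 t

variable {K : Type} [Field K] {N : ℕ}

/-- the ring of expansions along a line -/
abbrev PP (K : Type) [Field K] := Polynomial (Polynomial (P2 K))

/-- constants -/
noncomputable def cc : P2 K →+* PP K := Polynomial.C.comp Polynomial.C

/-- expansion along the line spanned by `α` and `β` -/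
noncomputable def expa (α β γ : Fin 3 → K) : MvPolynomial (Fin 2 × Fin 3) K →ₐ[K] PP K :=
  ev1 (fun c => cc (C (α c)) * cc (X (0, 0)) + cc (C (β c)) * cc (X (0, 1)) +
      cc (C (γ c)) * Polynomial.X)
    (fun c => cc (C (α c)) * cc (X (1, 0)) + cc (C (β c)) * cc (X (1, 1)) +
      cc (C (γ c)) * Polynomial.C Polynomial.X)

theorem alg_cc (a : K) : algebraMap K (PP K) a = cc (C a) := rfl

theorem expa_lin0 (α β γ M : Fin 3 → K) :
    expa α β γ (lin M (fun c => (X (0, c) : MvPolynomial (Fin 2 × Fin 3) K))) =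
      cc (C (lin M α)) * cc (X (0, 0)) + cc (C (lin M β)) * cc (X (0, 1)) +
        cc (C (lin M γ)) * Polynomial.X := by
  rw [expa, ev1_lin0, lin_K, lin_K, lin_K]
  simp only [lin, Fin.sum_univ_three, map_add, map_mul, alg_cc]
  ring

theorem expa_lin1 (α β γ M : Fin 3 → K) :
    expa α β γ (lin M (fun c => (X (1, c) : MvPolynomial (Fin 2 × Fin 3) K))) =
      cc (C (lin M α)) * cc (X (1, 0)) + cc (C (lin M β)) * cc (X (1, 1)) +
        cc (C (lin M γ)) * Polynomial.C Polynomial.X := by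
  rw [expa, ev1_lin1, lin_K, lin_K, lin_K]
  simp only [lin, Fin.sum_univ_three, map_add, map_mul, alg_cc]
  ring

/-- the constant term -/
noncomputable def kap (K : Type) [Field K] : PP K →+* P2 K :=
  Polynomial.constantCoeff.comp Polynomial.constantCoeff

theorem kap_cc (w : P2 K) : kap K (cc w) = w := by simp [kap, cc]

theorem kap_X : kap K Polynomial.X = 0 := by simp [kap]

theorem kap_CX : kap K (Polynomial.C Polynomial.X) = 0 := by simp [kap]

theorem kap_expa (α β γ : Fin 3 → K) (H : MvPolynomial (Fin 2 × Fin 3) K) :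
    kap K (expa α β γ H) = rest α β H := by
  have h : (kap K).comp (expa α β γ : MvPolynomial (Fin 2 × Fin 3) K →+* PP K) =
      (rest α β : MvPolynomial (Fin 2 × Fin 3) K →+* P2 K) := by
    refine MvPolynomial.ringHom_ext ?_ ?_
    · intro a
      have e1 : expa α β γ (C a) = cc (C a) := by
        rw [← MvPolynomial.algebraMap_eq, AlgHom.commutes]
        rfl
      have e2 : rest α β (C a) = C a := by
        rw [← MvPolynomial.algebraMap_eq, AlgHom.commutes]
        rfl
      rw [RingHom.comp_apply]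
      show kap K (expa α β γ (C a)) = rest α β (C a)
      rw [e1, e2, kap_cc]
    · rintro ⟨r, c⟩
      rw [RingHom.comp_apply]
      show kap K (expa α β γ (X (r, c))) = rest α β (X (r, c))
      have e2 : rest α β (X (r, c) : MvPolynomial (Fin 2 × Fin 3) K) =
          C (α c) * X (r, 0) + C (β c) * X (r, 1) := by
        simp [rest]
      rw [e2]
      fin_cases r
      · show kap K (expa α β γ (X (0, c))) = _
        rw [expa, ev1_X0]
        simp only [map_add, map_mul, kap_cc, kap_X, mul_zero, add_zero]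
        rfl
      · show kap K (expa α β γ (X (1, c))) = _
        rw [expa, ev1_X1]
        simp only [map_add, map_mul, kap_cc, kap_CX, mul_zero, add_zero]
        rfl
  exact RingHom.congr_fun h H

/-- the coefficients -/
noncomputable def phi (α β γ : Fin 3 → K) (A B : ℕ) :
    MvPolynomial (Fin 2 × Fin 3) K →ₗ[K] P2 K where
  toFun F := ((expa α β γ F).coeff A).coeff B
  map_add' F G := by simp
  map_smul' a F := by simp

theorem phi_lt (α β γ : Fin 3 → K) {A B A' : ℕ} (hA : A < A')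
    {F : MvPolynomial (Fin 2 × Fin 3) K} {Q : PP K} (hF : expa α β γ F = Polynomial.X ^ A' * Q) :
    phi α β γ A B F = 0 := by
  show ((expa α β γ F).coeff A).coeff B = 0
  rw [hF, Polynomial.coeff_X_pow_mul', if_neg (by omega), Polynomial.coeff_zero]

theorem phi_eq (α β γ : Fin 3 → K) {A B B' : ℕ} {F : MvPolynomial (Fin 2 × Fin 3) K} {Q : PP K}
    {w : P2 K} (hF : expa α β γ F = Polynomial.X ^ A * ((Polynomial.C Polynomial.X * cc (X (0, 0)) -
      Polynomial.X * cc w) ^ B' * Q)) :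
    phi α β γ A B F = if B' ≤ B then (X (0, 0) ^ B' * (Q.coeff 0).coeff (B - B') : P2 K) else 0 := by
  show ((expa α β γ F).coeff A).coeff B = _
  rw [hF, Polynomial.coeff_X_pow_mul', if_pos le_rfl, Nat.sub_self]
  have e1 : ∀ P : PP K, P.coeff 0 = Polynomial.constantCoeff P := fun P => rfl
  have e2 : Polynomial.constantCoeff (Polynomial.C Polynomial.X * cc (X (0, 0)) -
      Polynomial.X * cc w : PP K) = Polynomial.X * Polynomial.C (X (0, 0)) := by
    simp [cc]
  rw [e1, map_mul, map_pow, e2, mul_pow, mul_assoc, Polynomial.coeff_X_pow_mul']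
  split_ifs with h
  · rw [← Polynomial.C_pow, Polynomial.coeff_C_mul]
    rfl
  · rfl

theorem gen_id {R : Type} [CommRing R] (a b x g : R) (m s u : ℕ) :
    (a * b) ^ (s + 1) * (x ^ m * g) * x ^ u = x ^ (m + u) * (a ^ (s + 1) * (b ^ (s + 1) * g)) := by
  rw [mul_pow, pow_add x m u]
  ring

section El

variable {L : Fin N → Fin 3 → K} {S : Finset (Fin N)} {i s₀ : Fin N} {α β γ : Fin 3 → K}

/-- the new forms -/
noncomputable def El (L : Fin N → Fin 3 → K) (S : Finset (Fin N)) (i s₀ : Fin N) (p s u : ℕ)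
    (g : MvPolynomial (Fin 2 × Fin 3) K) : MvPolynomial (Fin 2 × Fin 3) K :=
  (qf L i s₀ * prf L (S.erase s₀)) ^ (s + 1) *
    (lin (L i) (fun c => X (0, c)) ^ (p - (s + 1)) * g) * lin (L i) (fun c => X (0, c)) ^ u

theorem El_mem (hi : i ∉ S) (hs₀ : s₀ ∈ S) {p s u c : ℕ} (hs : s + 1 ≤ p) (hu : u ≤ c)
    {g : MvPolynomial (Fin 2 × Fin 3) K} (hg : g ∈ LogP L S (p - (s + 1)) (c - u)) :
    El L S i s₀ p s u g ∈ LogP L (insert i S) p c := by
  have his : i ≠ s₀ := by
    rintro rfl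
    exact hi hs₀
  have h1 : qf L i s₀ * prf L (S.erase s₀) ∈ LogP L (insert i S) 1 0 := by
    have := LogP_qf (L := L) (S := insert i S) (a := i) (b := s₀) (Finset.mem_insert_self _ _)
      (Finset.mem_insert_of_mem hs₀) his
    rwa [Finset.erase_insert hi] at this
  have h2 := LogP_mul (LogP_mul (LogP_pow h1 (s + 1)) (LogP_insert hi hg))
    (LogP_pow (LogP_lin (L := L) (S := insert i S) (L i)) u)
  exact LogP_congr h2 (by omega) (by omega)

theorem expa_El (h0 : lin (L i) α = (0 : K)) (h1 : lin (L i) β = (0 : K))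
    (h2 : lin (L i) γ = (1 : K)) (h3 : lin (L s₀) α = (1 : K)) (h4 : lin (L s₀) β = (0 : K))
    (h5 : lin (L s₀) γ = (0 : K)) (p s u : ℕ) (g : MvPolynomial (Fin 2 × Fin 3) K) :
    expa α β γ (El L S i s₀ p s u g) = Polynomial.X ^ (p - (s + 1) + u) *
      ((Polynomial.C Polynomial.X * cc (X (0, 0)) - Polynomial.X * cc (X (1, 0))) ^ (s + 1) *
        expa α β γ (prf L (S.erase s₀) ^ (s + 1) * g)) := by
  have e1 : expa α β γ (qf L i s₀) =
      Polynomial.C Polynomial.X * cc (X (0, 0)) - Polynomial.X * cc (X (1, 0)) := by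
    rw [qf, map_sub, map_mul, map_mul, expa_lin0, expa_lin0, expa_lin1, expa_lin1, h0, h1, h2, h3,
      h4, h5]
    simp only [map_zero, map_one, zero_mul, one_mul, zero_add, add_zero]
  have e2 : expa α β γ (lin (L i) (fun c => X (0, c))) = Polynomial.X := by
    rw [expa_lin0, h0, h1, h2]
    simp only [map_zero, map_one, zero_mul, one_mul, zero_add]
  rw [El, map_mul, map_mul, map_mul, map_pow, map_pow, map_pow, map_mul, map_mul, map_pow, e1, e2]
  exact gen_id (R := PP K) _ _ _ _ _ _ _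

theorem expa_old (h0 : lin (L i) α = (0 : K)) (h1 : lin (L i) β = (0 : K))
    (h2 : lin (L i) γ = (1 : K)) (p : ℕ) (f : MvPolynomial (Fin 2 × Fin 3) K) :
    expa α β γ (lin (L i) (fun c => X (0, c)) ^ p * f) =
      Polynomial.X ^ p * expa α β γ f := by
  rw [map_mul, map_pow, expa_lin0, h0, h1, h2]
  simp only [map_zero, map_one, zero_mul, one_mul, zero_add]

end El

theorem rho_lt {p A B A' B' : ℕ} (hB' : B' ≤ p) (h : A * (p + 1) + B < A' * (p + 1) + B') :
    A < A' ∨ (A = A' ∧ B < B') := by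
  rcases lt_trichotomy A A' with h1 | h1 | h1
  · exact Or.inl h1
  · subst h1
    exact Or.inr ⟨rfl, by omega⟩
  · exfalso
    obtain ⟨k, rfl⟩ := Nat.exists_eq_add_of_lt h1
    nlinarith [Nat.zero_le (k * (p + 1))]

theorem card_J (n p c d : ℕ) : Fintype.card ((Σ x : (Σ s : Fin p, Fin ((s : ℕ) + 1)),
    Fin ((p - ((x.1 : ℕ) + 1)) * n + (c - (x.2 : ℕ)) + 1)) ⊕ Fin d) = d + newf n p c := by
  rw [Fintype.card_sum, Fintype.card_sigma, Fintype.card_fin, add_comm]
  simp only [Fintype.card_fin]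
  rw [Fintype.sum_sigma, newf, ← Fin.sum_univ_eq_sum_range (fun s =>
    ∑ u ∈ Finset.range (s + 1), ((p - (s + 1)) * n + (c - u) + 1)) p]
  congr 1
  refine Finset.sum_congr rfl fun s _ => ?_
  rw [← Fin.sum_univ_eq_sum_range (fun u => (p - ((s : ℕ) + 1)) * n + (c - u) + 1)
    ((s : ℕ) + 1)]

/-- module LIND -/
theorem lind (h : LresStmt) : LindStmt := by
  intro K _ N L S i n p c d f hL hi hS hpc hf hfli
  obtain ⟨s₀, hs₀⟩ : S.Nonempty := Finset.card_pos.1 (by omega)
  obtain ⟨s₁, hs₁⟩ : (S.erase s₀).Nonempty := Finset.card_pos.1 (by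
    rw [Finset.card_erase_of_mem hs₀]
    omega)
  have hs₁S : s₁ ∈ S := Finset.mem_of_mem_erase hs₁
  have hs₁₀ : s₁ ≠ s₀ := Finset.ne_of_mem_erase hs₁
  have his₀ : i ≠ s₀ := by
    rintro rfl
    exact hi hs₀
  have his₁ : s₁ ≠ i := by
    rintro rfl
    exact hi hs₁S
  obtain ⟨v, hv⟩ := exists_dual (hL i s₀ s₁ his₀ his₁ hs₁₀)
  have h00 : lin (L i) (v 0) = (1 : K) := by simpa using hv 0 0
  have h01 : lin (L i) (v 1) = (0 : K) := by simpa using hv 0 1
  have h02 : lin (L i) (v 2) = (0 : K) := by simpa using hv 0 2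
  have h10 : lin (L s₀) (v 0) = (0 : K) := by simpa using hv 1 0
  have h11 : lin (L s₀) (v 1) = (1 : K) := by simpa using hv 1 1
  have h12 : lin (L s₀) (v 2) = (0 : K) := by simpa using hv 1 2
  have h21 : lin (L s₁) (v 1) = (0 : K) := by simpa using hv 2 1
  have h22 : lin (L s₁) (v 2) = (1 : K) := by simpa using hv 2 2
  have hli := dual_li h11 h12 h21 h22
  have hdd := dd_ne_of_genPos hL hi hli h01 h02
  have hprf : rest (v 1) (v 2) (prf L (S.erase s₀)) ≠ 0 := by
    rw [rest_prf]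
    refine Finset.prod_ne_zero_iff.2 fun s hs => ?_
    have h1 := hdd s (Finset.mem_of_mem_erase hs) s₀ hs₀ (Finset.ne_of_mem_erase hs)
    refine restl_ne ?_
    by_contra hc
    push Not at hc
    exact h1 (by rw [dd, hc.1, hc.2]; ring)
  have hg : ∀ x : (Σ s : Fin p, Fin ((s : ℕ) + 1)),
      ∃ g : Fin ((p - ((x.1 : ℕ) + 1)) * n + (c - (x.2 : ℕ)) + 1) →
        MvPolynomial (Fin 2 × Fin 3) K,
      (∀ t, g t ∈ LogP L S (p - ((x.1 : ℕ) + 1)) (c - (x.2 : ℕ))) ∧
        LinearIndependent K fun t => rest (v 1) (v 2) (g t) :=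
    fun x => h K N L S i n _ _ (v 1) (v 2) hL hi hS hli h01 h02
  choose g hg hgli using hg
  have hsx : ∀ x : (Σ s : Fin p, Fin ((s : ℕ) + 1)), (x.1 : ℕ) < p ∧ (x.2 : ℕ) < (x.1 : ℕ) + 1 :=
    fun x => ⟨x.1.2, x.2.2⟩
  have htri := tri (K := K) (V := MvPolynomial (Fin 2 × Fin 3) K) (W := P2 K)
    (fun (x : (Σ s : Fin p, Fin ((s : ℕ) + 1))) t => El L S i s₀ p x.1 x.2 (g x t))
    (fun x => phi (v 1) (v 2) (v 0) (p - ((x.1 : ℕ) + 1) + (x.2 : ℕ)) ((x.1 : ℕ) + 1))
    (fun x => (p - ((x.1 : ℕ) + 1) + (x.2 : ℕ)) * (p + 1) + ((x.1 : ℕ) + 1)) ?_ ?_ ?_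
    (fun t => lin (L i) (fun c => X (0, c)) ^ p * f t) ?_ ?_
  · let e := (Fintype.equivFinOfCardEq (card_J n p c d)).symm
    have hm : ∀ y, (Sum.elim (fun x : (Σ x : (Σ s : Fin p, Fin ((s : ℕ) + 1)),
      Fin ((p - ((x.1 : ℕ) + 1)) * n + (c - (x.2 : ℕ)) + 1)) =>
        El L S i s₀ p x.1.1 x.1.2 (g x.1 x.2))
      (fun t => lin (L i) (fun c => X (0, c)) ^ p * f t)) y ∈ LogP L (insert i S) p c := by
      rintro (x | x)
      · have := hsx x.1
        exact El_mem hi hs₀ (by omega) (by omega) (hg x.1 x.2)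
      · exact LogP_insert hi (hf x)
    exact ⟨_, fun t => hm (e t), htri.comp e e.injective⟩
  · intro x x' hxx
    have h1 := hsx x
    have h2 := hsx x'
    have h3 : (p - ((x.1 : ℕ) + 1) + (x.2 : ℕ)) * (p + 1) + ((x.1 : ℕ) + 1) =
        (p - ((x'.1 : ℕ) + 1) + (x'.2 : ℕ)) * (p + 1) + ((x'.1 : ℕ) + 1) := hxx
    have h4 : (p - ((x.1 : ℕ) + 1) + (x.2 : ℕ)) = (p - ((x'.1 : ℕ) + 1) + (x'.2 : ℕ)) := by
      rcases lt_trichotomy (p - ((x.1 : ℕ) + 1) + (x.2 : ℕ)) (p - ((x'.1 : ℕ) + 1) + (x'.2 : ℕ))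
        with h5 | h5 | h5
      · exfalso
        obtain ⟨k, hk⟩ := Nat.exists_eq_add_of_lt h5
        rw [hk] at h3
        nlinarith [Nat.zero_le (k * (p + 1))]
      · exact h5
      · exfalso
        obtain ⟨k, hk⟩ := Nat.exists_eq_add_of_lt h5
        rw [hk] at h3
        nlinarith [Nat.zero_le (k * (p + 1))]
    rw [h4] at h3
    obtain ⟨⟨s, hs⟩, ⟨u, hu⟩⟩ := x
    obtain ⟨⟨s', hs'⟩, ⟨u', hu'⟩⟩ := x'
    simp only at h1 h2 h3 h4
    obtain rfl : s = s' := by omega
    obtain rfl : u = u' := by omega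
    rfl
  · intro x x' hxx t
    have h1 := hsx x
    have h2 := hsx x'
    have hE := expa_El (S := S) h01 h02 h00 h11 h12 h10 p x'.1 x'.2 (g x' t)
    rcases rho_lt (by omega) hxx with h3 | ⟨h3, h4⟩
    · exact phi_lt _ _ _ h3 hE
    · rw [← h3] at hE
      exact (phi_eq _ _ _ hE).trans (if_neg (by omega))
  · intro x
    have e1 : (fun t => phi (v 1) (v 2) (v 0) (p - ((x.1 : ℕ) + 1) + (x.2 : ℕ)) ((x.1 : ℕ) + 1)
        (El L S i s₀ p x.1 x.2 (g x t))) = fun t => ((X (0, 0) : P2 K) ^ ((x.1 : ℕ) + 1) *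
          rest (v 1) (v 2) (prf L (S.erase s₀)) ^ ((x.1 : ℕ) + 1)) *
            rest (v 1) (v 2) (g x t) := by
      funext t
      have hE := expa_El (S := S) h01 h02 h00 h11 h12 h10 p x.1 x.2 (g x t)
      rw [phi_eq _ _ _ hE, if_pos le_rfl, Nat.sub_self]
      have e2 : ((expa (v 1) (v 2) (v 0) (prf L (S.erase s₀) ^ ((x.1 : ℕ) + 1) * g x t)).coeff
          0).coeff 0 = rest (v 1) (v 2) (prf L (S.erase s₀) ^ ((x.1 : ℕ) + 1) * g x t) := by
        rw [← kap_expa (v 1) (v 2) (v 0)]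
        rfl
      rw [e2, map_mul, map_pow]
      ring
    rw [e1]
    exact li_mul (hgli x) (mul_ne_zero (pow_ne_zero _ (X_ne_zero _)) (pow_ne_zero _ hprf))
  · have hl : lin (L i) (fun c => X (0, c)) ≠ (0 : MvPolynomial (Fin 2 × Fin 3) K) := by
      intro h0
      have h1 := expa_lin0 (v 1) (v 2) (v 0) (L i)
      rw [h0, h00, h01, h02] at h1
      simp only [map_zero, map_one, zero_mul, one_mul, zero_add] at h1
      exact Polynomial.X_ne_zero h1.symm
    exact hfli.map' (LinearMap.mulLeft K (lin (L i) (fun c => X (0, c)) ^ p))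
      (LinearMap.ker_eq_bot.2 (mul_right_injective₀ (pow_ne_zero _ hl)))
  · intro x t
    have h1 := hsx x
    exact phi_lt _ _ _ (by omega) (expa_old h01 h02 h00 p (f t))

end Pool.Agent.DP.H32
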